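import Pool.Agent.Helper14.CL.CofL

/-!
# CB-ell: the cofactor at a general base point, for a finite family of moduli
-/

set_option autoImplicit false

namespace Pool.Agent.Helper14.CL

open NumberField Polynomial Pool.Agent.Helper4.CB Pool.Agent.Helper35.CB
open Pool.Agent.Helper14.CB (exists_prime_of_dvd norm_cong exists_split hv_cong exists_split_ideal
  CofI CofI.cofac)

/-- choice of the exponent `j` -/
theorem exists_exponent_fam {ι : Type*} (S : Finset ι) (D g : ℕ) (hg : 2 ≤ g) (M : ι → ℕ) (hS : S.card ≤ D) (a : ι → ℕ)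
    (c : ι → ℤ) (ha : ∀ i ∈ S, 1 ≤ a i) (hJ : ∀ i ∈ S, g ^ (D * a i) + 2 < M i) (r0 : ℕ)
    (hr : ∀ i ∈ S, r0 ≡ g [MOD M i]) :
    ∃ j : ℕ, 1 ≤ j ∧ j ≤ D + 1 ∧ ∀ i ∈ S, ¬ (M i : ℤ) ∣ ((r0 ^ j : ℕ) : ℤ) ^ a i * c i - 1 ∧
      ¬ (M i : ℤ) ∣ ((r0 ^ j : ℕ) : ℤ) ^ a i * c i + 1 := by
  classical
  by_contra hcon
  push Not at hcon
  obtain ⟨i0, -, -⟩ := hcon 1 le_rfl (by omega)
  have : Nonempty ι := ⟨i0⟩
  have h1 : ∀ j ∈ Finset.Icc 1 (D + 1), ∃ i ∈ S, ∃ ε : ℤ, (ε = 1 ∨ ε = -1) ∧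
      (M i : ℤ) ∣ ((r0 ^ j : ℕ) : ℤ) ^ a i * c i - ε := by
    intro j hj
    rw [Finset.mem_Icc] at hj
    obtain ⟨i, hi, h2⟩ := hcon j hj.1 hj.2
    by_cases h3 : (M i : ℤ) ∣ ((r0 ^ j : ℕ) : ℤ) ^ a i * c i - 1
    · exact ⟨i, hi, 1, Or.inl rfl, h3⟩
    · exact ⟨i, hi, -1, Or.inr rfl, by rw [sub_neg_eq_add]; exact h2 h3⟩
  choose! F hF ε hε hFε using h1
  have hmaps : Set.MapsTo F (↑(Finset.Icc 1 (D + 1)) : Set ℕ) (↑S : Set ι) := by
    intro j hj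
    exact hF j (Finset.mem_coe.1 hj)
  obtain ⟨j, hj, j', hj', hne, hFF⟩ := Finset.exists_ne_map_eq_of_card_lt_of_maps_to
    (by rw [Nat.card_Icc]; omega : S.card < (Finset.Icc 1 (D + 1)).card) hmaps
  wlog hlt : j < j' generalizing j j'
  · exact this j' hj' j hj hne.symm hFF.symm (by omega)
  rw [Finset.mem_Icc] at hj hj'
  have hjS := hF j (Finset.mem_Icc.2 hj)
  set i := F j with hi
  have e1 := hFε j (Finset.mem_Icc.2 hj)
  have e2 := hFε j' (Finset.mem_Icc.2 hj')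
  rw [← hFF] at e2
  rw [← hi] at e1
  have hr5 : (M i : ℤ) ∣ (r0 : ℤ) - g := by
    have := (Nat.modEq_iff_dvd.1 (hr i hjS).symm)
    push_cast at this
    exact this
  -- powers of five
  have hp : ∀ s : ℕ, (M i : ℤ) ∣ (r0 : ℤ) ^ s - (g : ℤ) ^ s := fun s =>
    hr5.trans (sub_dvd_pow_sub_pow _ _ _)
  have e3 : (M i : ℤ) ∣ (r0 : ℤ) ^ ((j' - j) * a i) * ε j - ε j' := by
    have h3 : (r0 : ℤ) ^ (j' * a i) = (r0 : ℤ) ^ ((j' - j) * a i) * (r0 : ℤ) ^ (j * a i) := by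
      rw [← pow_add, ← add_mul]
      congr 2
      omega
    have h4 : (r0 : ℤ) ^ ((j' - j) * a i) * ε j - ε j' =
        (((r0 ^ j' : ℕ) : ℤ) ^ a i * c i - ε j') -
        (r0 : ℤ) ^ ((j' - j) * a i) * (((r0 ^ j : ℕ) : ℤ) ^ a i * c i - ε j) := by
      push_cast
      rw [← pow_mul, ← pow_mul, h3]
      ring
    rw [h4]
    exact dvd_sub e2 (e1.mul_left _)
  have e4 : (M i : ℤ) ∣ (g : ℤ) ^ ((j' - j) * a i) * ε j - ε j' := by
    have h3 := dvd_sub e3 ((hp ((j' - j) * a i)).mul_right (ε j))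
    have h4 : (r0 : ℤ) ^ ((j' - j) * a i) * ε j - ε j' -
        ((r0 : ℤ) ^ ((j' - j) * a i) - (g : ℤ) ^ ((j' - j) * a i)) * ε j =
        (g : ℤ) ^ ((j' - j) * a i) * ε j - ε j' := by ring
    rwa [h4] at h3
  have hJ' : (g : ℤ) ^ (D * a i) + 2 < M i := by exact_mod_cast hJ i hjS
  have h5 : (g : ℤ) ^ ((j' - j) * a i) ≤ (g : ℤ) ^ (D * a i) :=
    pow_le_pow_right₀ (by omega) (Nat.mul_le_mul_right _ (by omega))
  have h6 : (2 : ℤ) ≤ (g : ℤ) ^ ((j' - j) * a i) := by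
    have h7 : 1 ≤ (j' - j) * a i := Nat.mul_pos (by omega) (ha i hjS)
    calc (2 : ℤ) ≤ (g : ℤ) := by exact_mod_cast hg
      _ = (g : ℤ) ^ 1 := (pow_one _).symm
      _ ≤ _ := pow_le_pow_right₀ (by omega) h7
  have fin : ∀ δ : ℤ, (δ = 1 ∨ δ = -1) → ¬ (M i : ℤ) ∣ (g : ℤ) ^ ((j' - j) * a i) - δ := by
    intro δ hδ h7
    rcases hδ with rfl | rfl
    · have := Int.le_of_dvd (by linarith) h7
      linarith
    · have := Int.le_of_dvd (by linarith) h7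
      linarith
  rcases hε j (Finset.mem_Icc.2 hj) with h7 | h7 <;> rcases hε j' (Finset.mem_Icc.2 hj') with h8 | h8
  · rw [h7, h8, mul_one] at e4
    exact fin 1 (Or.inl rfl) e4
  · rw [h7, h8, mul_one] at e4
    exact fin (-1) (Or.inr rfl) e4
  · rw [h7, h8] at e4
    apply fin (-1) (Or.inr rfl)
    have : (g : ℤ) ^ ((j' - j) * a i) - -1 = -((g : ℤ) ^ ((j' - j) * a i) * -1 - 1) := by ring
    rw [this, dvd_neg]
    exact e4
  · rw [h7, h8] at e4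
    apply fin 1 (Or.inl rfl)
    have : (g : ℤ) ^ ((j' - j) * a i) - 1 = -((g : ℤ) ^ ((j' - j) * a i) * -1 - -1) := by ring
    rw [this, dvd_neg]
    exact e4

/-- `r = g` modulo `L`, `r` prime to `m1` and to `L` -/
theorem exists_r_gen {L g m1 : ℕ} (hgL : g.Coprime L) (h : m1 ≠ 0) :
    ∃ r : ℕ, r ≡ g [MOD L] ∧ r.Coprime (m1 * L) := by
  obtain ⟨c, e, t, h1, h2, h3, h4⟩ := exists_split L m1 h
  obtain ⟨r, h5, h6⟩ := Nat.chineseRemainder h2.symm g 1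
  have hrL : r.Coprime L := by
    have h7 := h5.gcd_eq
    rw [Nat.coprime_iff_gcd_eq_one] at hgL ⊢
    rw [h7, hgL]
  have hre : r.Coprime e := by
    have := h6.gcd_eq
    rw [Nat.gcd_one_left] at this
    exact this
  refine ⟨r, h5, Nat.Coprime.mul_right ?_ hrL⟩
  rw [h1]
  exact Nat.Coprime.mul_right (Nat.Coprime.coprime_dvd_right h4 (hrL.pow_right t)) hre

variable {K : Type} [Field K] [NumberField K]

/-- **CI, families of moduli.** -/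
theorem exists_cofI_fam (K : Type) [Field K] [NumberField K] {κ : Type} [Fintype κ] (M : κ → ℕ)
    {g : ℕ} (hg : 2 ≤ g) (hgM : ∀ i, g.Coprime (M i)) (D dm : ℕ) (hdm : 1 ≤ dm)
    (hJ : ∀ i, g ^ ((Fintype.card κ * (D + 1)) * dm * Module.finrank ℚ K) + 2 < M i)
    (S : Finset (𝓞 K)[X]) (hSD : S.card ≤ D)
    (hS : ∀ P ∈ S, P.Monic ∧ 1 ≤ P.natDegree ∧ P.natDegree ≤ dm ∧ P.eval 1 ≠ 0)
    (m1 : ℕ) (h1m : 1 < m1) (T : ℕ) (h2 : ∀ i, M i ∣ m1 ^ T) :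
    ∃ (k r : ℕ) (α : ∀ i, (𝓞 K)[X] → ZMod (M i)) (β : ∀ i, ZMod (M i)), 1 ≤ k ∧
      (∀ i, M i ∣ m1 ^ k) ∧ r.Coprime (m1 ^ k) ∧ (∀ i, ∀ P ∈ S, IsUnit (α i P)) ∧
      (∀ i, IsUnit (β i)) ∧ ∀ u v : 𝓞 K,
      ((m1 ^ k : ℕ) : 𝓞 K) ∣ u - (r : 𝓞 K) → ((m1 ^ k : ℕ) : 𝓞 K) ∣ v - (r : 𝓞 K) →
      (v ≠ 0 ∧ ∀ i, CofI (m1 ^ k) (M i) (β i) v) ∧
        ∀ P ∈ S, hv P u v ≠ 0 ∧ ∀ i, CofI (m1 ^ k) (M i) (α i P) (hv P u v) := by
  classical
  have hm1 : m1 ≠ 0 := by omega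
  have hsplit : ∀ P ∈ S, ∃ c e t : ℕ, (Algebra.norm ℤ (P.eval 1)).natAbs = c * e ∧
      e.Coprime m1 ∧ c ≠ 0 ∧ c ∣ m1 ^ t := by
    intro P hP
    refine exists_split m1 _ ?_
    rw [Ne, Int.natAbs_eq_zero, Algebra.norm_eq_zero_iff]
    exact (hS P hP).2.2.2
  choose! c e t hN he hc0 hct using hsplit
  have hgL : g.Coprime (∏ i, M i) := Nat.Coprime.prod_right fun i _ => hgM i
  obtain ⟨r0, hr0, hr0m⟩ := exists_r_gen hgL hm1
  have hr0m1 : r0.Coprime m1 := Nat.Coprime.coprime_dvd_right (dvd_mul_right _ _) hr0m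
  have hr0M : ∀ i, r0 ≡ g [MOD M i] := fun i =>
    hr0.of_dvd (Finset.dvd_prod_of_mem M (Finset.mem_univ i))
  have hcard : (Finset.univ ×ˢ (insert (1, 1) (S.image (fun P => (P.natDegree, e P)))) :
      Finset (κ × (ℕ × ℕ))).card ≤ Fintype.card κ * (D + 1) := by
    rw [Finset.card_product, Finset.card_univ]
    refine Nat.mul_le_mul_left _ ((Finset.card_insert_le _ _).trans ?_)
    have := Finset.card_image_le (s := S) (f := fun P => (P.natDegree, e P))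
    omega
  have hmem : ∀ x ∈ (insert (1, 1) (S.image (fun P => (P.natDegree, e P))) : Finset (ℕ × ℕ)),
      1 ≤ x.1 ∧ x.1 ≤ dm := by
    intro x hx
    rw [Finset.mem_insert, Finset.mem_image] at hx
    rcases hx with rfl | ⟨P, hP, rfl⟩
    · exact ⟨le_rfl, hdm⟩
    · exact ⟨(hS P hP).2.1, (hS P hP).2.2.1⟩
  obtain ⟨j, hj1, -, hj2⟩ := exists_exponent_fam
    (Finset.univ ×ˢ (insert (1, 1) (S.image (fun P => (P.natDegree, e P)))) :
      Finset (κ × (ℕ × ℕ))) (Fintype.card κ * (D + 1)) g hg (fun x => M x.1) hcard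
    (fun x => x.2.1 * Module.finrank ℚ K) (fun x => (x.2.2 : ℤ)) (by
      intro x hx
      exact Nat.mul_pos (hmem x.2 (Finset.mem_product.1 hx).2).1 Module.finrank_pos) (by
      intro x hx
      have h1 : x.2.1 ≤ dm := (hmem x.2 (Finset.mem_product.1 hx).2).2
      refine lt_of_le_of_lt ?_ (hJ x.1)
      have h3 : Fintype.card κ * (D + 1) * (x.2.1 * Module.finrank ℚ K) ≤
          Fintype.card κ * (D + 1) * dm * Module.finrank ℚ K := by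
        rw [← mul_assoc]
        exact Nat.mul_le_mul_right _ (Nat.mul_le_mul_left _ h1)
      exact Nat.add_le_add_right (Nat.pow_le_pow_right (by omega) h3) 2) r0
    (fun x _ => hr0M x.1)
  have hk : ∀ i, ∀ P ∈ S, M i * c P * m1 ∣ m1 ^ (T + (∑ P ∈ S, t P) + 1) := by
    intro i P hP
    rw [pow_succ, pow_add]
    refine mul_dvd_mul (mul_dvd_mul (h2 i) ?_) dvd_rfl
    exact (hct P hP).trans (pow_dvd_pow m1 (Finset.single_le_sum (f := t)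
      (fun _ _ => Nat.zero_le _) hP))
  have hk' : ∀ P ∈ S, 1 * c P * m1 ∣ m1 ^ (T + (∑ P ∈ S, t P) + 1) := by
    intro P hP
    rw [pow_succ, pow_add]
    refine mul_dvd_mul (mul_dvd_mul (one_dvd _) ?_) dvd_rfl
    exact (hct P hP).trans (pow_dvd_pow m1 (Finset.single_le_sum (f := t)
      (fun _ _ => Nat.zero_le _) hP))
  have hk1 : ∀ i, M i * 1 * m1 ∣ m1 ^ (T + (∑ P ∈ S, t P) + 1) := by
    intro i
    rw [pow_succ, pow_add]
    exact mul_dvd_mul (mul_dvd_mul (h2 i) (one_dvd _)) dvd_rfl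
  have hk1' : 1 * 1 * m1 ∣ m1 ^ (T + (∑ P ∈ S, t P) + 1) := by
    rw [pow_succ, pow_add]
    exact mul_dvd_mul (mul_dvd_mul (one_dvd _) (one_dvd _)) dvd_rfl
  have hone : (Algebra.norm ℤ (1 : 𝓞 K)).natAbs = 1 * 1 := by
    rw [map_one]; rfl
  have hrj : (r0 ^ j).Coprime m1 := hr0m1.pow_left j
  have hodd : ∀ i, ∀ n : ℕ, n.Coprime m1 → IsUnit ((n : ℕ) : ZMod (M i)) := by
    intro i n hn
    rw [ZMod.isUnit_iff_coprime]
    exact Nat.Coprime.coprime_dvd_right (h2 i) (hn.pow_right T)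
  have hj3 : ∀ i, ∀ (d f : ℕ), (d, f) ∈ insert (1, 1) (S.image (fun P => (P.natDegree, e P))) →
      (¬ (M i : ℤ) ∣ ((r0 ^ j : ℕ) : ℤ) ^ (d * Module.finrank ℚ K) * f - 1 ∧
      ¬ (M i : ℤ) ∣ ((r0 ^ j : ℕ) : ℤ) ^ (d * Module.finrank ℚ K) * f + 1) := by
    intro i d f hdf
    exact hj2 (i, (d, f)) (Finset.mem_product.2 ⟨Finset.mem_univ _, hdf⟩)
  have hj3v := fun i => hj3 i 1 1 (Finset.mem_insert_self _ _)
  have hj3P : ∀ i, ∀ P ∈ S, _ := fun i P hP => hj3 i P.natDegree (e P)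
    (Finset.mem_insert_of_mem (Finset.mem_image_of_mem (fun P => (P.natDegree, e P)) hP))
  refine ⟨T + (∑ P ∈ S, t P) + 1, r0 ^ j,
    fun i P => ((r0 ^ j : ℕ) : ZMod (M i)) ^ (P.natDegree * Module.finrank ℚ K) * e P,
    fun i => ((r0 ^ j : ℕ) : ZMod (M i)) ^ (1 * Module.finrank ℚ K) * ((1 : ℕ) : ZMod (M i)),
    by omega, fun i => ((dvd_mul_right _ _).trans (dvd_mul_right _ _)).trans (hk1 i),
    hrj.pow_right _,
    fun i P hP => ((hodd i _ hrj).pow _).mul (hodd i _ (he P hP)),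
    fun i => ((hodd i _ hrj).pow _).mul (by rw [Nat.cast_one]; exact isUnit_one),
    fun u v hu hv' => ?_⟩
  have hvx : ((m1 ^ (T + (∑ P ∈ S, t P) + 1) : ℕ) : 𝓞 K) ∣ v - ((r0 ^ j : ℕ) : 𝓞 K) ^ 1 * 1 := by
    rw [pow_one, mul_one]
    exact hv'
  have hPx : ∀ P ∈ S, ((m1 ^ (T + (∑ P ∈ S, t P) + 1) : ℕ) : 𝓞 K) ∣
      hv P u v - ((r0 ^ j : ℕ) : 𝓞 K) ^ P.natDegree * P.eval 1 := fun P _ => hv_cong hu hv'
  refine ⟨⟨ne_zero_gen h1m hone (Nat.coprime_one_left m1) one_ne_zero hk1' hrj hvx, fun i => ?_⟩,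
    fun P hP => ⟨ne_zero_gen h1m (hN P hP) (he P hP) (hc0 P hP) (hk' P hP) hrj (hPx P hP),
      fun i => ?_⟩⟩
  · exact cofI_gen h1m hone (Nat.coprime_one_left m1) one_ne_zero (hk1 i) hrj (hj3v i).1
      (hj3v i).2 hvx
  · exact cofI_gen h1m (hN P hP) (he P hP) (hc0 P hP) (hk i P hP) hrj (hj3P i P hP).1
      (hj3P i P hP).2 (hPx P hP)

end Pool.Agent.Helper14.CL
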