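import Pool.Agent.Helper14.CB.CofI

/-!
# CB-ell: the cofactor at a general base point, for a prime `ell`
-/

set_option autoImplicit false

namespace Pool.Agent.Helper14.CL

open NumberField Polynomial Pool.Agent.Helper4.CB Pool.Agent.Helper35.CB
open Pool.Agent.Helper14.CB (exists_prime_of_dvd norm_cong exists_split hv_cong exists_split_ideal
  CofI CofI.cofac)

/-- division of a congruence modulo `m1 ^ k` by the part of `B` composed of primes of `m1` -/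
theorem cong_core {m1 k M c eB gB : ℕ} {A B : ℤ}
    (hB : B.natAbs = gB * eB) (hc : c.Coprime m1) (heB : eB.Coprime m1)
    (hgB : M * gB * m1 ∣ m1 ^ k) (h : ((m1 ^ k : ℕ) : ℤ) ∣ A - c * B) :
    ∃ A' : ℤ, A = gB * A' ∧ IsCoprime A' (m1 : ℤ) ∧
      ((M : ℤ) ∣ c * eB - A' ∨ (M : ℤ) ∣ c * eB + A') := by
  obtain ⟨w, hw⟩ := hgB
  obtain ⟨z, hz⟩ := h
  have hcop : IsCoprime ((c : ℤ) * eB) (m1 : ℤ) :=
    (Nat.isCoprime_iff_coprime.2 hc).mul_left (Nat.isCoprime_iff_coprime.2 heB)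
  have key : ∀ ε : ℤ, (ε = 1 ∨ ε = -1) → B = ε * (gB * eB) →
      ∃ A' : ℤ, A = gB * A' ∧ IsCoprime A' (m1 : ℤ) ∧
      ((M : ℤ) ∣ c * eB - A' ∨ (M : ℤ) ∣ c * eB + A') := by
    intro ε hε hBε
    refine ⟨c * eB * ε + (m1 : ℤ) * (M * (w * z)), ?_, ?_, ?_⟩
    · have h1 : A = c * B + ((m1 ^ k : ℕ) : ℤ) * z := by linear_combination hz
      rw [h1, hw, hBε]
      push_cast
      ring
    · apply IsCoprime.add_mul_left_left
      rcases hε with rfl | rfl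
      · rwa [mul_one]
      · rw [mul_neg_one]
        exact hcop.neg_left
    · rcases hε with rfl | rfl
      · left
        have h1 : (c : ℤ) * eB - (c * eB * 1 + (m1 : ℤ) * (M * (w * z))) =
            (M : ℤ) * (-((m1 : ℤ) * (w * z))) := by ring
        rw [h1]
        exact dvd_mul_right _ _
      · right
        have h1 : (c : ℤ) * eB + (c * eB * -1 + (m1 : ℤ) * (M * (w * z))) =
            (M : ℤ) * ((m1 : ℤ) * (w * z)) := by ring
        rw [h1]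
        exact dvd_mul_right _ _
  rcases Int.natAbs_eq B with h1 | h1
  · exact key 1 (Or.inl rfl) (by rw [h1, hB]; push_cast; ring)
  · exact key (-1) (Or.inr rfl) (by rw [h1, hB]; push_cast; ring)

/-- the part of `A` prime to `m1` -/
theorem cong_part {m1 k M c eA gA eB gB : ℕ} {A B : ℤ} (hm : m1 ≠ 0)
    (hA : A.natAbs = eA * gA) (heA : eA.Coprime m1) (hgA : ∀ l : ℕ, l.Prime → l ∣ gA → l ∣ m1)
    (hB : B.natAbs = gB * eB) (hc : c.Coprime m1) (heB : eB.Coprime m1)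
    (hgB : M * gB * m1 ∣ m1 ^ k) (h : ((m1 ^ k : ℕ) : ℤ) ∣ A - c * B) :
    (M : ℤ) ∣ c * eB - eA ∨ (M : ℤ) ∣ c * eB + eA := by
  obtain ⟨A', hAA', hcop, h3⟩ := cong_core hB hc heB hgB h
  have hcop' : A'.natAbs.Coprime m1 := by
    have := Int.isCoprime_iff_gcd_eq_one.1 hcop
    rw [Int.gcd_def, Int.natAbs_natCast] at this
    exact this
  have h4 : eA * gA = gB * A'.natAbs := by
    rw [← hA, hAA', Int.natAbs_mul, Int.natAbs_natCast]
  have hgk : gB ∣ m1 ^ k := ((dvd_mul_left _ _).trans (dvd_mul_right _ _)).trans hgB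
  have h5 : gB.Coprime eA := by
    apply Nat.Coprime.symm
    exact Nat.Coprime.coprime_dvd_right hgk (heA.pow_right k)
  have h6 : gB ∣ gA := by
    apply h5.dvd_of_dvd_mul_left
    rw [h4]
    exact dvd_mul_right _ _
  obtain ⟨g', hg'⟩ := h6
  have hgB0 : gB ≠ 0 := by
    rintro rfl
    rw [zero_dvd_iff] at hgk
    exact pow_ne_zero k hm hgk
  have h7 : eA * g' = A'.natAbs := by
    apply Nat.eq_of_mul_eq_mul_left (Nat.pos_of_ne_zero hgB0)
    rw [← h4, hg']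
    ring
  have h8 : g' = 1 := by
    by_contra hne
    obtain ⟨l, hl, hlg⟩ := Nat.exists_prime_and_dvd hne
    have h9 : l ∣ m1 := hgA l hl (hlg.trans (by rw [hg']; exact dvd_mul_left _ _))
    have h10 : l ∣ A'.natAbs := hlg.trans (by rw [← h7]; exact dvd_mul_left _ _)
    have h11 := Nat.dvd_gcd h10 h9
    rw [hcop'] at h11
    exact hl.one_lt.ne' (Nat.dvd_one.1 h11)
  rw [h8, mul_one] at h7
  rcases Int.natAbs_eq A' with h9 | h9
  · rw [h9, ← h7] at h3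
    exact h3
  · rw [h9, ← h7, sub_neg_eq_add, ← sub_eq_add_neg] at h3
    exact h3.symm

variable {K : Type} [Field K] [NumberField K]

theorem ne_zero_gen {M m1 k r d : ℕ} {y : 𝓞 K} {c e : ℕ} (h1m : 1 < m1)
    (hN : (Algebra.norm ℤ y).natAbs = c * e) (he : e.Coprime m1) (hc0 : c ≠ 0)
    (hc : M * c * m1 ∣ m1 ^ k) (hr : r.Coprime m1)
    {x : 𝓞 K} (hx : ((m1 ^ k : ℕ) : 𝓞 K) ∣ x - (r : 𝓞 K) ^ d * y) : x ≠ 0 := by
  rintro rfl
  obtain ⟨A', hA, hcop, -⟩ := cong_core hN (hr.pow_left _) he hc (norm_cong hx)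
  rw [Algebra.norm_zero] at hA
  have hg0 : (c : ℤ) ≠ 0 := by exact_mod_cast hc0
  have hA0 : A' = 0 := by
    rcases mul_eq_zero.1 hA.symm with h | h
    · exact absurd h hg0
    · exact h
  rw [hA0, isCoprime_zero_left] at hcop
  have h3 := Int.isUnit_iff_natAbs_eq.1 hcop
  rw [Int.natAbs_natCast] at h3
  omega

/-- **C2I.** the cofactor as an ideal: `N y = ± c e`, `c` divides a power of `m1`, `e` prime to
`m1` -/
theorem cofI_gen {M m1 k r d : ℕ} {y : 𝓞 K} {c e : ℕ} (h1m : 1 < m1)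
    (hN : (Algebra.norm ℤ y).natAbs = c * e) (he : e.Coprime m1) (hc0 : c ≠ 0)
    (hc : M * c * m1 ∣ m1 ^ k) (hr : r.Coprime m1)
    (hr1 : ¬ (M : ℤ) ∣ (r : ℤ) ^ (d * Module.finrank ℚ K) * e - 1)
    (hr2 : ¬ (M : ℤ) ∣ (r : ℤ) ^ (d * Module.finrank ℚ K) * e + 1)
    {x : 𝓞 K} (hx : ((m1 ^ k : ℕ) : 𝓞 K) ∣ x - (r : 𝓞 K) ^ d * y) :
    CofI (m1 ^ k) M ((r : ZMod M) ^ (d * Module.finrank ℚ K) * e) x := by
  intro q hmq' hq hxq
  have hmq : (m1 : 𝓞 K) ∉ q.asIdeal := by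
    intro h0
    apply hmq'
    have hk0 : k ≠ 0 := by
      rintro rfl
      rw [pow_zero, Nat.dvd_one] at hc
      have h1 : m1 = 1 := Nat.eq_one_of_mul_eq_one_left hc
      omega
    push_cast
    exact Ideal.pow_mem_of_mem _ h0 k (Nat.pos_of_ne_zero hk0)
  have hx0 : x ≠ 0 := ne_zero_gen h1m hN he hc0 hc hr hx
  obtain ⟨b, hb⟩ := (Ideal.dvd_span_singleton.2 hxq : q.asIdeal ∣ Ideal.span {x})
  have hspan : Ideal.span {x} ≠ ⊥ := by rwa [Ne, Ideal.span_singleton_eq_bot]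
  have hb0 : b ≠ ⊥ := by
    rintro rfl
    apply hspan
    rw [hb, Ideal.mul_bot]
  have hxb : x ∈ b := by
    have h1 : Ideal.span {x} ≤ b := by
      rw [hb]
      exact Ideal.mul_le_right (I := q.asIdeal) (J := b)
    exact h1 (Ideal.mem_span_singleton_self x)
  obtain ⟨I, I', hII, hIco, hI'⟩ := exists_split_ideal (m1 := m1) _ b hb0 rfl
  have hnorm : (Algebra.norm ℤ x).natAbs = nm q * Ideal.absNorm I * Ideal.absNorm I' := by
    rw [← Ideal.absNorm_span_singleton, hb, hII, map_mul, map_mul, mul_assoc]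
    rfl
  have hxI : x ∈ I := by
    have h1 : b ≤ I := by
      rw [hII]
      exact Ideal.mul_le_left (I := I) (J := I')
    exact h1 hxb
  have hI0 : I ≠ ⊥ := by
    rintro rfl
    apply hb0
    rw [hII, Ideal.bot_mul]
  have hcopI : (Ideal.absNorm I).Coprime m1 := by
    rw [Nat.coprime_iff_gcd_eq_one]
    by_contra hne
    obtain ⟨l, hl, hlg⟩ := Nat.exists_prime_and_dvd hne
    obtain ⟨N, hM, hqM, hMl⟩ := exists_prime_of_dvd hl (hlg.trans (Nat.gcd_dvd_left _ _))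
    apply hM.ne_top
    rw [eq_top_iff, ← hIco]
    exact sup_le hqM ((Ideal.span_singleton_le_iff_mem _).2
      ((hMl m1).2 (hlg.trans (Nat.gcd_dvd_right _ _))))
  have hnq : (nm q).Coprime m1 := by
    rw [Nat.coprime_iff_gcd_eq_one]
    by_contra hne
    obtain ⟨l, hl, hlg⟩ := Nat.exists_prime_and_dvd hne
    have h1 : l ∣ nm q := hlg.trans (Nat.gcd_dvd_left _ _)
    have h3 : l ∣ m1 := hlg.trans (Nat.gcd_dvd_right _ _)
    obtain ⟨N, hM, hqM, hMl⟩ := exists_prime_of_dvd hl h1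
    have h4 : q.asIdeal = N := q.isMaximal.eq_of_le hM.ne_top hqM
    apply hmq
    rw [h4]
    exact (hMl m1).2 h3
  have hq1 : ((nm q : ℕ) : ZMod M) = 1 := by
    have := (ZMod.natCast_eq_natCast_iff _ _ _).2 hq
    rw [this, Nat.cast_one]
  have hclass : ((Ideal.absNorm I : ℕ) : ZMod M) =
        (r : ZMod M) ^ (d * Module.finrank ℚ K) * e ∨
      ((Ideal.absNorm I : ℕ) : ZMod M) =
        -((r : ZMod M) ^ (d * Module.finrank ℚ K) * e) := by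
    rcases cong_part (by omega) hnorm (Nat.Coprime.mul_left hnq hcopI) hI' hN
      (hr.pow_left (d * Module.finrank ℚ K)) he hc (norm_cong hx) with h | h
    · left
      have h1 : (M : ℤ) ∣ ((r ^ (d * Module.finrank ℚ K) : ℕ) : ℤ) * (e : ℤ) -
          ((nm q * Ideal.absNorm I : ℕ) : ℤ) := by
        push_cast
        push_cast at h
        exact h
      have h3 := (ZMod.intCast_eq_intCast_iff_dvd_sub _ _ _).2 h1
      push_cast at h3
      rw [hq1, one_mul] at h3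
      exact h3
    · right
      have h1 : (M : ℤ) ∣ ((r ^ (d * Module.finrank ℚ K) : ℕ) : ℤ) * (e : ℤ) -
          (-((nm q * Ideal.absNorm I : ℕ) : ℤ)) := by
        rw [sub_neg_eq_add]
        push_cast
        push_cast at h
        exact h
      have h3 := (ZMod.intCast_eq_intCast_iff_dvd_sub _ _ _).2 h1
      push_cast at h3
      rw [hq1, one_mul] at h3
      rw [← h3, neg_neg]
  have hIm : I ⊔ Ideal.span {((m1 ^ k : ℕ) : 𝓞 K)} = ⊤ := by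
    rw [← Ideal.isCoprime_iff_sup_eq] at hIco ⊢
    have h1 : Ideal.span {((m1 ^ k : ℕ) : 𝓞 K)} = Ideal.span {(m1 : 𝓞 K)} ^ k := by
      rw [Ideal.span_singleton_pow]
      push_cast
      rfl
    rw [h1]
    exact hIco.pow_right
  have hItop : I ≠ ⊤ := by
    rintro rfl
    rw [Ideal.absNorm_top, Nat.cast_one] at hclass
    rcases hclass with h | h
    · apply hr1
      have h1 : (((r : ℤ) ^ (d * Module.finrank ℚ K) * e - 1 : ℤ) : ZMod M) = 0 := by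
        push_cast
        rw [← h, sub_self]
      exact (ZMod.intCast_zmod_eq_zero_iff_dvd _ _).1 h1
    · apply hr2
      have h1 : (((r : ℤ) ^ (d * Module.finrank ℚ K) * e + 1 : ℤ) : ZMod M) = 0 := by
        push_cast
        rw [h]
        ring
      exact (ZMod.intCast_zmod_eq_zero_iff_dvd _ _).1 h1
  refine ⟨⟨I, hI0, hIm⟩, hItop, hxI, ?_, hclass⟩
  rw [hnorm]
  have h1 : Ideal.absNorm I' ≠ 0 := by
    rw [Ne, Ideal.absNorm_eq_zero_iff]
    rintro rfl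
    apply hb0
    rw [hII, Ideal.mul_bot]
  calc Ideal.absNorm I * nm q = nm q * Ideal.absNorm I * 1 := by ring
    _ ≤ nm q * Ideal.absNorm I * Ideal.absNorm I' :=
        Nat.mul_le_mul_left _ (Nat.pos_of_ne_zero h1)

/-- choice of the exponent `j` -/
theorem exists_exponent {ι : Type*} (S : Finset ι) (D M g : ℕ) (hg : 2 ≤ g) (hS : S.card ≤ D) (a : ι → ℕ)
    (c : ι → ℤ) (ha : ∀ i ∈ S, 1 ≤ a i) (hJ : ∀ i ∈ S, g ^ (D * a i) + 2 < M) (r0 : ℕ)
    (hr : r0 ≡ g [MOD M]) :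
    ∃ j : ℕ, 1 ≤ j ∧ j ≤ D + 1 ∧ ∀ i ∈ S, ¬ (M : ℤ) ∣ ((r0 ^ j : ℕ) : ℤ) ^ a i * c i - 1 ∧
      ¬ (M : ℤ) ∣ ((r0 ^ j : ℕ) : ℤ) ^ a i * c i + 1 := by
  classical
  by_contra hcon
  push Not at hcon
  obtain ⟨i0, -, -⟩ := hcon 1 le_rfl (by omega)
  have : Nonempty ι := ⟨i0⟩
  have h1 : ∀ j ∈ Finset.Icc 1 (D + 1), ∃ i ∈ S, ∃ ε : ℤ, (ε = 1 ∨ ε = -1) ∧
      (M : ℤ) ∣ ((r0 ^ j : ℕ) : ℤ) ^ a i * c i - ε := by
    intro j hj
    rw [Finset.mem_Icc] at hj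
    obtain ⟨i, hi, h2⟩ := hcon j hj.1 hj.2
    by_cases h3 : (M : ℤ) ∣ ((r0 ^ j : ℕ) : ℤ) ^ a i * c i - 1
    · exact ⟨i, hi, 1, Or.inl rfl, h3⟩
    · exact ⟨i, hi, -1, Or.inr rfl, by rw [sub_neg_eq_add]; exact h2 h3⟩
  choose! F hF ε hε hFε using h1
  have hmaps : Set.MapsTo F (↑(Finset.Icc 1 (D + 1)) : Set ℕ) (↑S : Set ι) := by
    intro j hj
    exact hF j (Finset.mem_coe.1 hj)
  obtain ⟨j, hj, j', hj', hne, hFF⟩ := Finset.exists_ne_map_eq_of_card_lt_of_maps_to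
    (by rw [Nat.card_Icc]; omega : S.card < (Finset.Icc 1 (D + 1)).card) hmaps
  wlog hlt : j < j' generalizing j j'
  · exact this j' hj' j hj hne.symm hFF.symm (by omega)
  rw [Finset.mem_Icc] at hj hj'
  have hjS := hF j (Finset.mem_Icc.2 hj)
  set i := F j with hi
  have e1 := hFε j (Finset.mem_Icc.2 hj)
  have e2 := hFε j' (Finset.mem_Icc.2 hj')
  rw [← hFF] at e2
  rw [← hi] at e1
  have hr5 : (M : ℤ) ∣ (r0 : ℤ) - g := by
    have := (Nat.modEq_iff_dvd.1 hr.symm)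
    push_cast at this
    exact this
  -- powers of five
  have hp : ∀ s : ℕ, (M : ℤ) ∣ (r0 : ℤ) ^ s - (g : ℤ) ^ s := fun s =>
    hr5.trans (sub_dvd_pow_sub_pow _ _ _)
  have e3 : (M : ℤ) ∣ (r0 : ℤ) ^ ((j' - j) * a i) * ε j - ε j' := by
    have h3 : (r0 : ℤ) ^ (j' * a i) = (r0 : ℤ) ^ ((j' - j) * a i) * (r0 : ℤ) ^ (j * a i) := by
      rw [← pow_add, ← add_mul]
      congr 2
      omega
    have h4 : (r0 : ℤ) ^ ((j' - j) * a i) * ε j - ε j' =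
        (((r0 ^ j' : ℕ) : ℤ) ^ a i * c i - ε j') -
        (r0 : ℤ) ^ ((j' - j) * a i) * (((r0 ^ j : ℕ) : ℤ) ^ a i * c i - ε j) := by
      push_cast
      rw [← pow_mul, ← pow_mul, h3]
      ring
    rw [h4]
    exact dvd_sub e2 (e1.mul_left _)
  have e4 : (M : ℤ) ∣ (g : ℤ) ^ ((j' - j) * a i) * ε j - ε j' := by
    have h3 := dvd_sub e3 ((hp ((j' - j) * a i)).mul_right (ε j))
    have h4 : (r0 : ℤ) ^ ((j' - j) * a i) * ε j - ε j' -
        ((r0 : ℤ) ^ ((j' - j) * a i) - (g : ℤ) ^ ((j' - j) * a i)) * ε j =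
        (g : ℤ) ^ ((j' - j) * a i) * ε j - ε j' := by ring
    rwa [h4] at h3
  have hJ' : (g : ℤ) ^ (D * a i) + 2 < M := by exact_mod_cast hJ i hjS
  have h5 : (g : ℤ) ^ ((j' - j) * a i) ≤ (g : ℤ) ^ (D * a i) :=
    pow_le_pow_right₀ (by omega) (Nat.mul_le_mul_right _ (by omega))
  have h6 : (2 : ℤ) ≤ (g : ℤ) ^ ((j' - j) * a i) := by
    have h7 : 1 ≤ (j' - j) * a i := Nat.mul_pos (by omega) (ha i hjS)
    calc (2 : ℤ) ≤ (g : ℤ) := by exact_mod_cast hg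
      _ = (g : ℤ) ^ 1 := (pow_one _).symm
      _ ≤ _ := pow_le_pow_right₀ (by omega) h7
  have fin : ∀ δ : ℤ, (δ = 1 ∨ δ = -1) → ¬ (M : ℤ) ∣ (g : ℤ) ^ ((j' - j) * a i) - δ := by
    intro δ hδ h7
    rcases hδ with rfl | rfl
    · have := Int.le_of_dvd (by linarith) h7
      linarith
    · have := Int.le_of_dvd (by linarith) h7
      linarith
  rcases hε j (Finset.mem_Icc.2 hj) with h7 | h7 <;> rcases hε j' (Finset.mem_Icc.2 hj') with h8 | h8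
  · rw [h7, h8, mul_one] at e4
    exact fin 1 (Or.inl rfl) e4
  · rw [h7, h8, mul_one] at e4
    exact fin (-1) (Or.inr rfl) e4
  · rw [h7, h8] at e4
    apply fin (-1) (Or.inr rfl)
    have : (g : ℤ) ^ ((j' - j) * a i) - -1 = -((g : ℤ) ^ ((j' - j) * a i) * -1 - 1) := by ring
    rw [this, dvd_neg]
    exact e4
  · rw [h7, h8] at e4
    apply fin 1 (Or.inl rfl)
    have : (g : ℤ) ^ ((j' - j) * a i) - 1 = -((g : ℤ) ^ ((j' - j) * a i) * -1 - -1) := by ring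
    rw [this, dvd_neg]
    exact e4

/-- `r = g` modulo `ell ^ J`, `r` prime to `m1` and to `ell` -/
theorem exists_r {ell g : ℕ} (hl : ell.Prime) (hgl : g.Coprime ell) (J : ℕ) {m1 : ℕ}
    (h : 0 < m1) : ∃ r : ℕ, r ≡ g [MOD ell ^ J] ∧ r.Coprime (m1 * ell ^ J) := by
  have hcop : Nat.Coprime ell (m1 / ell ^ m1.factorization ell) := Nat.coprime_ordCompl hl h.ne'
  have hco : Nat.Coprime (ell ^ (J + 1)) (m1 / ell ^ m1.factorization ell) := hcop.pow_left _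
  obtain ⟨r, h1, h2⟩ := Nat.chineseRemainder hco g 1
  have hrl : r.Coprime ell := by
    have h3 : r ≡ g [MOD ell] := h1.of_dvd (dvd_pow_self ell (Nat.succ_ne_zero J))
    have h4 := h3.gcd_eq
    rw [Nat.coprime_iff_gcd_eq_one] at hgl ⊢
    rw [h4, hgl]
  have hc1 : Nat.Coprime r (m1 / ell ^ m1.factorization ell) := by
    have := h2.gcd_eq
    rw [Nat.gcd_one_left] at this
    exact this
  refine ⟨r, h1.of_dvd (pow_dvd_pow ell (Nat.le_succ J)), ?_⟩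
  have hm : m1 = ell ^ m1.factorization ell * (m1 / ell ^ m1.factorization ell) :=
    (Nat.ordProj_mul_ordCompl_eq_self m1 ell).symm
  refine Nat.Coprime.mul_right ?_ (hrl.pow_right _)
  rw [hm]
  exact Nat.Coprime.mul_right (hrl.pow_right _) hc1

/-- **CI.** `k`, `r` and the classes `α P`, `β` such that the cofactors of `v` and of the values
`P(u, v)` exist for all `u`, `v` congruent to `r` modulo `m1 ^ k` -/
theorem exists_cofI (K : Type) [Field K] [NumberField K] {ell g : ℕ} (hl : ell.Prime)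
    (hg : 2 ≤ g) (hgl : g.Coprime ell) (D dm J : ℕ) (hdm : 1 ≤ dm)
    (hJ : g ^ ((D + 2) * dm * Module.finrank ℚ K) + 2 < ell ^ J) (S : Finset (𝓞 K)[X])
    (hSD : S.card ≤ D)
    (hS : ∀ P ∈ S, P.Monic ∧ 1 ≤ P.natDegree ∧ P.natDegree ≤ dm ∧ P.eval 1 ≠ 0)
    (m1 : ℕ) (hm1 : m1 ≠ 0) (h2 : ell ∣ m1) :
    ∃ (k r : ℕ) (α : (𝓞 K)[X] → ZMod (ell ^ J)) (β : ZMod (ell ^ J)), 1 ≤ k ∧ ell ^ J ∣ m1 ^ k ∧
      r.Coprime (m1 ^ k) ∧ (∀ P ∈ S, IsUnit (α P)) ∧ IsUnit β ∧ ∀ u v : 𝓞 K,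
      ((m1 ^ k : ℕ) : 𝓞 K) ∣ u - (r : 𝓞 K) → ((m1 ^ k : ℕ) : 𝓞 K) ∣ v - (r : 𝓞 K) →
      (v ≠ 0 ∧ CofI (m1 ^ k) (ell ^ J) β v) ∧
        ∀ P ∈ S, hv P u v ≠ 0 ∧ CofI (m1 ^ k) (ell ^ J) (α P) (hv P u v) := by
  classical
  have h1m : 1 < m1 := lt_of_lt_of_le hl.one_lt (Nat.le_of_dvd (Nat.pos_of_ne_zero hm1) h2)
  have hsplit : ∀ P ∈ S, ∃ c e t : ℕ, (Algebra.norm ℤ (P.eval 1)).natAbs = c * e ∧
      e.Coprime m1 ∧ c ≠ 0 ∧ c ∣ m1 ^ t := by
    intro P hP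
    refine exists_split m1 _ ?_
    rw [Ne, Int.natAbs_eq_zero, Algebra.norm_eq_zero_iff]
    exact (hS P hP).2.2.2
  choose! c e t hN he hc0 hct using hsplit
  obtain ⟨r0, hr0, hr0m⟩ := exists_r hl hgl J (Nat.pos_of_ne_zero hm1)
  have hr0m1 : r0.Coprime m1 := Nat.Coprime.coprime_dvd_right (dvd_mul_right _ _) hr0m
  obtain ⟨j, hj1, -, hj2⟩ := exists_exponent
    (insert (1, 1) (S.image (fun P => (P.natDegree, e P)))) (D + 1) (ell ^ J) g hg (by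
      refine (Finset.card_insert_le _ _).trans ?_
      have := Finset.card_image_le (s := S) (f := fun P => (P.natDegree, e P))
      omega) (fun x => x.1 * Module.finrank ℚ K) (fun x => (x.2 : ℤ)) (by
      intro x hx
      refine Nat.mul_pos ?_ Module.finrank_pos
      rw [Finset.mem_insert, Finset.mem_image] at hx
      rcases hx with rfl | ⟨P, hP, rfl⟩
      · exact Nat.one_pos
      · exact (hS P hP).2.1) (by
      intro x hx
      have h1 : x.1 ≤ dm := by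
        rw [Finset.mem_insert, Finset.mem_image] at hx
        rcases hx with rfl | ⟨P, hP, rfl⟩
        · exact hdm
        · exact (hS P hP).2.2.1
      refine lt_of_le_of_lt ?_ hJ
      have h3 : (D + 1) * (x.1 * Module.finrank ℚ K) ≤ (D + 2) * dm * Module.finrank ℚ K := by
        rw [← mul_assoc]
        exact Nat.mul_le_mul_right _ (Nat.mul_le_mul (by omega) h1)
      exact Nat.add_le_add_right (Nat.pow_le_pow_right (by omega) h3) 2) r0 hr0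
  have hk : ∀ P ∈ S, ell ^ J * c P * m1 ∣ m1 ^ (J + (∑ P ∈ S, t P) + 1) := by
    intro P hP
    rw [pow_succ, pow_add]
    refine mul_dvd_mul (mul_dvd_mul (pow_dvd_pow_of_dvd h2 J) ?_) dvd_rfl
    exact (hct P hP).trans (pow_dvd_pow m1 (Finset.single_le_sum (f := t)
      (fun _ _ => Nat.zero_le _) hP))
  have hk1 : ell ^ J * 1 * m1 ∣ m1 ^ (J + (∑ P ∈ S, t P) + 1) := by
    rw [pow_succ, pow_add]
    exact mul_dvd_mul (mul_dvd_mul (pow_dvd_pow_of_dvd h2 J) (one_dvd _)) dvd_rfl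
  have hone : (Algebra.norm ℤ (1 : 𝓞 K)).natAbs = 1 * 1 := by
    rw [map_one]; rfl
  have hrj : (r0 ^ j).Coprime m1 := hr0m1.pow_left j
  have hodd : ∀ n : ℕ, n.Coprime m1 → IsUnit ((n : ℕ) : ZMod (ell ^ J)) := by
    intro n hn
    rw [ZMod.isUnit_iff_coprime]
    exact (Nat.Coprime.coprime_dvd_right h2 hn).pow_right J
  have hj3 : ∀ (d f : ℕ), (d, f) ∈ insert (1, 1) (S.image (fun P => (P.natDegree, e P))) →
      (¬ ((ell ^ J : ℕ) : ℤ) ∣ ((r0 ^ j : ℕ) : ℤ) ^ (d * Module.finrank ℚ K) * f - 1 ∧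
      ¬ ((ell ^ J : ℕ) : ℤ) ∣ ((r0 ^ j : ℕ) : ℤ) ^ (d * Module.finrank ℚ K) * f + 1) := by
    intro d f hdf
    have h1 := hj2 (d, f) hdf
    exact h1
  have hj3v := hj3 1 1 (Finset.mem_insert_self _ _)
  have hj3P : ∀ P ∈ S, _ := fun P hP => hj3 P.natDegree (e P)
    (Finset.mem_insert_of_mem (Finset.mem_image_of_mem (fun P => (P.natDegree, e P)) hP))
  refine ⟨J + (∑ P ∈ S, t P) + 1, r0 ^ j,
    fun P => ((r0 ^ j : ℕ) : ZMod (ell ^ J)) ^ (P.natDegree * Module.finrank ℚ K) * e P,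
    ((r0 ^ j : ℕ) : ZMod (ell ^ J)) ^ (1 * Module.finrank ℚ K) * ((1 : ℕ) : ZMod (ell ^ J)),
    by omega, ((dvd_mul_right _ _).trans (dvd_mul_right _ _)).trans hk1, hrj.pow_right _,
    fun P hP => ((hodd _ hrj).pow _).mul (hodd _ (he P hP)),
    ((hodd _ hrj).pow _).mul (by rw [Nat.cast_one]; exact isUnit_one), fun u v hu hv' => ?_⟩
  have hvx : ((m1 ^ (J + (∑ P ∈ S, t P) + 1) : ℕ) : 𝓞 K) ∣ v - ((r0 ^ j : ℕ) : 𝓞 K) ^ 1 * 1 := by
    rw [pow_one, mul_one]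
    exact hv'
  have hPx : ∀ P ∈ S, ((m1 ^ (J + (∑ P ∈ S, t P) + 1) : ℕ) : 𝓞 K) ∣
      hv P u v - ((r0 ^ j : ℕ) : 𝓞 K) ^ P.natDegree * P.eval 1 := fun P _ => hv_cong hu hv'
  refine ⟨⟨ne_zero_gen h1m hone (Nat.coprime_one_left m1) one_ne_zero hk1 hrj hvx, ?_⟩,
    fun P hP => ⟨ne_zero_gen h1m (hN P hP) (he P hP) (hc0 P hP) (hk P hP) hrj (hPx P hP), ?_⟩⟩
  · exact cofI_gen h1m hone (Nat.coprime_one_left m1) one_ne_zero hk1 hrj hj3v.1 hj3v.2 hvx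
  · exact cofI_gen h1m (hN P hP) (he P hP) (hc0 P hP) (hk P hP) hrj (hj3P P hP).1
      (hj3P P hP).2 (hPx P hP)

/-- the form for degree two -/
theorem exists_cofac (K : Type) [Field K] [NumberField K] {ell g : ℕ} (hl : ell.Prime)
    (hg : 2 ≤ g) (hgl : g.Coprime ell) (D dm J : ℕ) (hdm : 1 ≤ dm)
    (hJ : g ^ ((D + 2) * dm * Module.finrank ℚ K) + 2 < ell ^ J) (S : Finset (𝓞 K)[X])
    (hSD : S.card ≤ D)
    (hS : ∀ P ∈ S, P.Monic ∧ 1 ≤ P.natDegree ∧ P.natDegree ≤ dm ∧ P.eval 1 ≠ 0)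
    (m1 : ℕ) (hm1 : m1 ≠ 0) (h2 : ell ∣ m1) :
    ∃ k r : ℕ, 1 ≤ k ∧ r.Coprime (m1 ^ k) ∧ ∀ u v : 𝓞 K,
      ((m1 ^ k : ℕ) : 𝓞 K) ∣ u - (r : 𝓞 K) → ((m1 ^ k : ℕ) : 𝓞 K) ∣ v - (r : 𝓞 K) →
      Cofac (m1 ^ k) (ell ^ J) v ∧ ∀ P ∈ S, Cofac (m1 ^ k) (ell ^ J) (hv P u v) := by
  obtain ⟨k, r, α, β, h1, -, h3, -, -, h4⟩ := exists_cofI K hl hg hgl D dm J hdm hJ S hSD hS m1 hm1 h2
  refine ⟨k, r, h1, h3, fun u v hu hv' => ?_⟩
  have h5 := h4 u v hu hv'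
  exact ⟨h5.1.2.cofac, fun P hP => (h5.2 P hP).2.cofac⟩

end Pool.Agent.Helper14.CL
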