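import Pool.Agent.Helper18.CL.Defs

/-!
# CB-ell: norm of the root, extension of the field
-/

set_option autoImplicit false

namespace Pool.Agent.Helper14.CL

open Polynomial Pool.Agent.Helper18.CL

/-- norm of the root -/
theorem isNm_self {F : Type} [Field F] {l : ℕ} (hl : l ≠ 0) (a : F) :
    IsNm l a ((-1) ^ (l + 1) * a) := by
  have hm : (X ^ l - C a : F[X]).Monic := monic_X_pow_sub_C a hl
  refine ⟨AdjoinRoot.root _, ?_⟩
  have h1 := Algebra.PowerBasis.norm_gen_eq_coeff_zero_minpoly (AdjoinRoot.powerBasis hm.ne_zero)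
  rw [AdjoinRoot.minpoly_powerBasis_gen_of_monic hm, AdjoinRoot.powerBasis_gen,
    AdjoinRoot.powerBasis_dim, natDegree_X_pow_sub_C] at h1
  rw [h1, coeff_sub, coeff_X_pow, coeff_C_zero, if_neg (Ne.symm hl)]
  ring

/-- the norm commutes with the extension of the field -/
theorem norm_map {F E : Type} [Field F] [Field E] [Algebra F E] {f : F[X]} (hf : f.Monic)
    (e : AdjoinRoot f) :
    Algebra.norm E (AdjoinRoot.map (algebraMap F E) f (f.map (algebraMap F E)) dvd_rfl e) =
      algebraMap F E (Algebra.norm F e) := by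
  classical
  set φ := AdjoinRoot.map (algebraMap F E) f (f.map (algebraMap F E)) dvd_rfl with hφ
  have hf' : (f.map (algebraMap F E)).Monic := hf.map _
  set b := (AdjoinRoot.powerBasis' hf).basis with hb
  have hdim : (AdjoinRoot.powerBasis' hf).dim = (AdjoinRoot.powerBasis' hf').dim := by
    rw [AdjoinRoot.powerBasis'_dim, AdjoinRoot.powerBasis'_dim, natDegree_map]
  set b' := (AdjoinRoot.powerBasis' hf').basis.reindex (finCongr hdim.symm) with hb'
  have hbb : ∀ i, φ (b i) = b' i := by
    intro i
    rw [hb, hb', PowerBasis.coe_basis, Module.Basis.reindex_apply, PowerBasis.coe_basis,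
      AdjoinRoot.powerBasis'_gen, AdjoinRoot.powerBasis'_gen, map_pow, hφ, AdjoinRoot.map_root]
    rfl
  have hsm : ∀ (c : F) (x : AdjoinRoot f), φ (c • x) = (algebraMap F E c) • φ x := by
    intro c x
    rw [Algebra.smul_def, Algebra.smul_def, map_mul]
    congr 1
    rw [AdjoinRoot.algebraMap_eq, AdjoinRoot.algebraMap_eq, hφ, AdjoinRoot.map_of]
  have hrep : ∀ (x : AdjoinRoot f) i, b'.repr (φ x) i = algebraMap F E (b.repr x i) := by
    intro x i
    conv_lhs => rw [← b.sum_repr x]
    rw [map_sum]
    simp_rw [hsm, hbb]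
    rw [map_sum, Finsupp.finsetSum_apply, Finset.sum_eq_single i]
    · rw [map_smul, Finsupp.smul_apply, Module.Basis.repr_self, Finsupp.single_eq_same,
        smul_eq_mul, mul_one]
    · intro j _ hj
      rw [map_smul, Finsupp.smul_apply, Module.Basis.repr_self, Finsupp.single_eq_of_ne hj.symm,
        smul_zero]
    · intro h
      exact absurd (Finset.mem_univ i) h
  have hmat : Algebra.leftMulMatrix b' (φ e) =
      (Algebra.leftMulMatrix b e).map (algebraMap F E) := by
    ext i j
    rw [Matrix.map_apply, Algebra.leftMulMatrix_eq_repr_mul, Algebra.leftMulMatrix_eq_repr_mul,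
      ← hbb j, ← map_mul, hrep]
  rw [Algebra.norm_eq_matrix_det b, Algebra.norm_eq_matrix_det b', hmat]
  exact (RingHom.map_det (algebraMap F E) (Algebra.leftMulMatrix b e)).symm

/-- extension of the field -/
theorem isNm_map {F E : Type} [Field F] [Field E] [Algebra F E] {l : ℕ} (hl : l ≠ 0) {a b : F}
    (h : IsNm l a b) : IsNm l (algebraMap F E a) (algebraMap F E b) := by
  obtain ⟨e, rfl⟩ := h
  have h1 : (X ^ l - C (algebraMap F E a) : E[X]) = (X ^ l - C a : F[X]).map (algebraMap F E) := by
    rw [Polynomial.map_sub, Polynomial.map_pow, map_X, map_C]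
  unfold IsNm
  rw [h1]
  exact ⟨_, norm_map (monic_X_pow_sub_C a hl) e⟩

end Pool.Agent.Helper14.CL
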